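import Pool.Agent.W544.K3.Defs

/-!
# K3-REH (helper337): the hyperbolic part of an element of the Lie algebra is in the ideal
-/

open Module Finset

namespace Pool.Agent.W337.K3

open Pool.Agent.W544.K3

/-- the orthogonal projection on the complement of the two hyperbolic planes -/
noncomputable def prj {U : Type} [AddCommGroup U] [Module ℝ U] (B : U →ₗ[ℝ] U →ₗ[ℝ] ℝ)
    (e₁ f₁ e₂ f₂ : U) : U →ₗ[ℝ] U :=
  LinearMap.id - ((B f₁).smulRight e₁ + (B e₁).smulRight f₁ + (B f₂).smulRight e₂ +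
    (B e₂).smulRight f₂)

theorem prj_apply {U : Type} [AddCommGroup U] [Module ℝ U] (B : U →ₗ[ℝ] U →ₗ[ℝ] ℝ)
    (e₁ f₁ e₂ f₂ u : U) : prj B e₁ f₁ e₂ f₂ u =
      u - (B f₁ u • e₁ + B e₁ u • f₁ + B f₂ u • e₂ + B e₂ u • f₂) := by
  simp [prj]

/-- the inner product -/
noncomputable def inn {U : Type} [AddCommGroup U] [Module ℝ U] (B : U →ₗ[ℝ] U →ₗ[ℝ] ℝ)
    (e₁ f₁ e₂ f₂ : U) : U →ₗ[ℝ] U →ₗ[ℝ] ℝ :=
  (B f₁).smulRight (B f₁) + (B e₁).smulRight (B e₁) + (B f₂).smulRight (B f₂) +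
    (B e₂).smulRight (B e₂) - B.compl₁₂ (prj B e₁ f₁ e₂ f₂) (prj B e₁ f₁ e₂ f₂)

theorem inn_apply {U : Type} [AddCommGroup U] [Module ℝ U] (B : U →ₗ[ℝ] U →ₗ[ℝ] ℝ)
    (e₁ f₁ e₂ f₂ u v : U) : inn B e₁ f₁ e₂ f₂ u v =
      B f₁ u * B f₁ v + B e₁ u * B e₁ v + B f₂ u * B f₂ v + B e₂ u * B e₂ v
        - B (prj B e₁ f₁ e₂ f₂ u) (prj B e₁ f₁ e₂ f₂ v) := by
  simp [inn]

theorem wedge_skew {U : Type} [AddCommGroup U] [Module ℝ U] (B : U →ₗ[ℝ] U →ₗ[ℝ] ℝ)
    (hB : ∀ u v, B u v = B v u) (a b : U) : Skew B (wedge B a b) := by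
  intro u v
  simp only [wedge_apply, map_sub, map_smul, LinearMap.sub_apply, LinearMap.smul_apply, smul_eq_mul]
  rw [hB u a, hB u b]
  ring

theorem reH : S_reH := by
  intro U _ _ _ B h n D e₁ f₁ e₂ f₂ H y hy α β he1 hf1 he2 hf2
  obtain ⟨hB, ⟨h11, h12, h13⟩, ⟨h21, h22, h23⟩, k1, k2, k3, k4, hneg⟩ := H
  have b13 : B f₁ e₁ = 1 := by rw [hB, h13]
  have b23 : B f₂ e₂ = 1 := by rw [hB, h23]
  have c1 : B e₂ e₁ = 0 := by rw [hB, k1]
  have c2 : B f₂ e₁ = 0 := by rw [hB, k2]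
  have c3 : B e₂ f₁ = 0 := by rw [hB, k3]
  have c4 : B f₂ f₁ = 0 := by rw [hB, k4]
  set π := prj B e₁ f₁ e₂ f₂ with hπ
  have pe1 : ∀ u, B e₁ (π u) = 0 := by
    intro u
    rw [hπ, prj_apply]
    simp only [map_sub, map_add, map_smul, smul_eq_mul, h11, h13, k1, k2]
    ring
  have pf1 : ∀ u, B f₁ (π u) = 0 := by
    intro u
    rw [hπ, prj_apply]
    simp only [map_sub, map_add, map_smul, smul_eq_mul, h12, b13, k3, k4]
    ring
  have pe2 : ∀ u, B e₂ (π u) = 0 := by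
    intro u
    rw [hπ, prj_apply]
    simp only [map_sub, map_add, map_smul, smul_eq_mul, h21, h23, c1, c3]
    ring
  have pf2 : ∀ u, B f₂ (π u) = 0 := by
    intro u
    rw [hπ, prj_apply]
    simp only [map_sub, map_add, map_smul, smul_eq_mul, h22, b23, c2, c4]
    ring
  have hpos : IsPos (inn B e₁ f₁ e₂ f₂) := by
    constructor
    · intro u v
      rw [inn_apply, inn_apply, ← hπ, hB (π u) (π v)]
      ring
    · intro u hu
      rw [inn_apply, ← hπ]
      by_cases h0 : π u = 0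
      · rw [h0]
        simp only [map_zero, sub_zero]
        by_contra hcon
        push Not at hcon
        have q1 := mul_self_nonneg (B f₁ u)
        have q2 := mul_self_nonneg (B e₁ u)
        have q3 := mul_self_nonneg (B f₂ u)
        have q4 := mul_self_nonneg (B e₂ u)
        have r1 : B f₁ u = 0 := mul_self_eq_zero.1 (by linarith)
        have r2 : B e₁ u = 0 := mul_self_eq_zero.1 (by linarith)
        have r3 : B f₂ u = 0 := mul_self_eq_zero.1 (by linarith)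
        have r4 : B e₂ u = 0 := mul_self_eq_zero.1 (by linarith)
        rw [hπ, prj_apply, r1, r2, r3, r4] at h0
        simp only [zero_smul, add_zero, sub_zero] at h0
        exact hu h0
      · have hn := hneg (π u) h0 (pe1 u) (pf1 u) (pe2 u) (pf2 u)
        nlinarith [mul_self_nonneg (B f₁ u), mul_self_nonneg (B e₁ u), mul_self_nonneg (B f₂ u),
          mul_self_nonneg (B e₂ u)]
  obtain ⟨y₁, hy₁⟩ : ∃ y₁, y₁ = α • wedge B f₁ e₁ + β • wedge B f₂ e₂ := ⟨_, rfl⟩
  rw [← hy₁]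
  have y1a : ∀ u, y₁ u = α • (B f₁ u • e₁ - B e₁ u • f₁) + β • (B f₂ u • e₂ - B e₂ u • f₂) := by
    intro u
    rw [hy₁]
    simp only [LinearMap.add_apply, LinearMap.smul_apply, wedge_apply]
  have y1f1 : ∀ u, B f₁ (y₁ u) = α * B f₁ u := by
    intro u
    rw [y1a]
    simp only [map_sub, map_add, map_smul, smul_eq_mul, h12, b13, k3, k4]
    ring
  have y1e1 : ∀ u, B e₁ (y₁ u) = -(α * B e₁ u) := by
    intro u
    rw [y1a]
    simp only [map_sub, map_add, map_smul, smul_eq_mul, h11, h13, k1, k2]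
    ring
  have y1f2 : ∀ u, B f₂ (y₁ u) = β * B f₂ u := by
    intro u
    rw [y1a]
    simp only [map_sub, map_add, map_smul, smul_eq_mul, h22, b23, c2, c4]
    ring
  have y1e2 : ∀ u, B e₂ (y₁ u) = -(β * B e₂ u) := by
    intro u
    rw [y1a]
    simp only [map_sub, map_add, map_smul, smul_eq_mul, h21, h23, c1, c3]
    ring
  have y1p : ∀ u, π (y₁ u) = 0 := by
    intro u
    rw [hπ, prj_apply, y1f1, y1e1, y1f2, y1e2, y1a]
    module
  have hsym : SymOp (inn B e₁ f₁ e₂ f₂) y₁ := by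
    intro u v
    rw [inn_apply, inn_apply, ← hπ, y1f1, y1e1, y1f2, y1e2, y1f1, y1e1, y1f2, y1e2, y1p, y1p]
    simp only [map_zero, LinearMap.zero_apply]
    ring
  have hy1skew : Skew B y₁ := by
    intro u v
    have w1 := wedge_skew B hB f₁ e₁ u v
    have w2 := wedge_skew B hB f₂ e₂ u v
    rw [hy₁]
    simp only [LinearMap.add_apply, LinearMap.smul_apply, map_add, map_smul, smul_eq_mul]
    linear_combination α * w1 + β * w2
  obtain ⟨y₂, hy₂⟩ : ∃ y₂, y₂ = y - y₁ := ⟨_, rfl⟩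
  have hy2skew : Skew B y₂ := by
    intro u v
    have w1 := D.skew y hy u v
    have w2 := hy1skew u v
    rw [hy₂]
    simp only [LinearMap.sub_apply, map_sub]
    linear_combination w1 - w2
  have z1 : y₂ e₁ = 0 := by
    rw [hy₂, LinearMap.sub_apply, he1, y1a, b13, h11, c2, c1]
    module
  have z2 : y₂ f₁ = 0 := by
    rw [hy₂, LinearMap.sub_apply, hf1, y1a, h12, h13, c4, c3]
    module
  have z3 : y₂ e₂ = 0 := by
    rw [hy₂, LinearMap.sub_apply, he2, y1a, k3, k1, b23, h21]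
    module
  have z4 : y₂ f₂ = 0 := by
    rw [hy₂, LinearMap.sub_apply, hf2, y1a, k4, k2, h22, h23]
    module
  have t1 : ∀ u, B e₁ (y₂ u) = 0 := by
    intro u
    have := hy2skew e₁ u
    rw [z1] at this
    simpa using this
  have t2 : ∀ u, B f₁ (y₂ u) = 0 := by
    intro u
    have := hy2skew f₁ u
    rw [z2] at this
    simpa using this
  have t3 : ∀ u, B e₂ (y₂ u) = 0 := by
    intro u
    have := hy2skew e₂ u
    rw [z3] at this
    simpa using this
  have t4 : ∀ u, B f₂ (y₂ u) = 0 := by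
    intro u
    have := hy2skew f₂ u
    rw [z4] at this
    simpa using this
  have py2 : ∀ u, π (y₂ u) = y₂ u := by
    intro u
    rw [hπ, prj_apply, t1, t2, t3, t4]
    module
  have y2p : ∀ u, y₂ (π u) = y₂ u := by
    intro u
    rw [hπ, prj_apply]
    simp only [map_sub, map_add, map_smul, z1, z2, z3, z4, smul_zero, add_zero, sub_zero]
  have hskew : Skew (inn B e₁ f₁ e₂ f₂) y₂ := by
    intro u v
    rw [inn_apply, inn_apply, ← hπ, t1, t2, t3, t4, t1, t2, t3, t4, py2, py2, ← y2p u, ← y2p v]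
    have := hy2skew (π u) (π v)
    linear_combination (-1 : ℝ) * this
  have hcomm : y₁ * y₂ = y₂ * y₁ := by
    apply LinearMap.ext
    intro u
    rw [Module.End.mul_apply, Module.End.mul_apply, y1a (y₂ u), t1, t2, t3, t4, y1a u]
    simp only [map_sub, map_add, map_smul, z1, z2, z3, z4, smul_zero, add_zero, sub_zero,
      zero_smul]
  refine D.re (inn B e₁ f₁ e₂ f₂) hpos y₁ y₂ hsym hskew hcomm ?_
  rw [hy₂, add_sub_cancel]
  exact hy

end Pool.Agent.W337.K3
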